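import Pool.Agent.H705.GB.Stm
import Pool.Graph.R_seed8.Helper601.Mertens

/-!
# Task GB NT1 (helper571 for helper705): lower bound for the probability that a number is rough
-/

set_option autoImplicit false

namespace Pool.Agent.H571.GB

open Pool.Agent.H705.GB Finset
open Pool.Agent.H705.TR (un)

theorem un_mono {M : ℕ} {P Q : ℕ → Prop} (h : ∀ y, P y → Q y) : un M P ≤ un M Q := by
  classical
  unfold un
  refine div_le_div_of_nonneg_right ?_ (Nat.cast_nonneg _)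
  exact_mod_cast card_le_card fun y hy =>
    mem_filter.2 ⟨(mem_filter.1 hy).1, h y (mem_filter.1 hy).2⟩

/-- `1 - x ≥ exp (- x - x ^ 2)` -/
theorem one_sub_exp {x : ℝ} (h0 : 0 ≤ x) (h1 : x ≤ 1 / 2) : Real.exp (-(x + x ^ 2)) ≤ 1 - x := by
  have h2 : 0 < 1 - x := by linarith
  have h3 := Real.quadratic_le_exp_of_nonneg (show 0 ≤ x + x ^ 2 by positivity)
  rw [Real.exp_neg, inv_le_comm₀ (Real.exp_pos _) h2]
  refine le_trans ?_ h3
  rw [inv_eq_one_div, div_le_iff₀ h2]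
  have h4 : x + x ^ 2 + x ^ 3 ≤ 1 := by
    have e1 : x ^ 2 ≤ (1 / 2) ^ 2 := pow_le_pow_left₀ h0 h1 2
    have e2 : x ^ 3 ≤ (1 / 2) ^ 3 := pow_le_pow_left₀ h0 h1 3
    linarith
  have h5 : 0 ≤ x ^ 2 * (1 - (x + x ^ 2 + x ^ 3)) := mul_nonneg (by positivity) (by linarith)
  have e : (1 + (x + x ^ 2) + (x + x ^ 2) ^ 2 / 2) * (1 - x) =
      1 + x ^ 2 * (1 - (x + x ^ 2 + x ^ 3)) / 2 := by ring
  rw [e]
  linarith

theorem T_NT1 (hPRD : P_PRD) : P_NT1 := by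
  obtain ⟨C, hC⟩ := Pool.Agent.Helper601.Mertens.mertens_inv
  have hs : Summable (fun n : ℕ => 1 / (n : ℝ) ^ 2) := Real.summable_one_div_nat_pow.2 (by norm_num)
  obtain ⟨K, hK⟩ : ∃ K : ℝ, K = ∑' n : ℕ, 1 / (n : ℝ) ^ 2 := ⟨_, rfl⟩
  refine ⟨Real.exp (-(C + K)), Real.exp_pos _, fun z m k hm hk => ?_⟩
  obtain ⟨S', hS'⟩ : ∃ S' : Finset ℕ, S' = (Icc 1 m).filter Nat.Prime := ⟨_, rfl⟩
  obtain ⟨S, hS⟩ : ∃ S : Finset ℕ, S = S'.filter (fun l => l ≠ 2 ∧ l ^ 2 ≤ m) := ⟨_, rfl⟩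
  have hSp : ∀ l ∈ S, l.Prime ∧ l ≠ 2 ∧ l ≤ m := by
    intro l hl
    rw [hS, hS'] at hl
    exact ⟨(mem_filter.1 (mem_filter.1 hl).1).2, (mem_filter.1 hl).2.1,
      (mem_Icc.1 (mem_filter.1 (mem_filter.1 hl).1).1).2⟩
  have hSS : S ⊆ S' := by
    rw [hS]
    exact filter_subset _ _
  have hmem : ∀ l : ℕ, l.Prime → l ≠ 2 → l ^ 2 ≤ m → l ∈ S := by
    intro l hl hl2 h2
    rw [hS, hS']
    refine mem_filter.2 ⟨mem_filter.2 ⟨mem_Icc.2 ⟨hl.one_lt.le, ?_⟩, hl⟩, hl2, h2⟩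
    exact (Nat.le_self_pow (by norm_num) l).trans h2
  have h0 : un k (fun y => ∀ l ∈ S, ¬ l ∣ 2 * y + 1) ≤ un k (fun y => r z m (2 * y + 1)) := by
    refine un_mono fun y hy => ?_
    intro p hp _ hpm hdvd
    by_cases hp2 : p = 2
    · rw [hp2] at hdvd
      omega
    · exact hy p (hmem p hp hp2 hpm) hdvd
  rw [hPRD k S hk.1 fun l hl => ⟨(hSp l hl).1, (hSp l hl).2.1,
    hk.2 l (hSp l hl).1.one_lt.le (hSp l hl).2.2⟩] at h0
  refine le_trans ?_ h0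
  have hfac : ∀ l ∈ S, Real.exp (-(1 / (l : ℝ) + 1 / (l : ℝ) ^ 2)) ≤ 1 - 1 / (l : ℝ) := by
    intro l hl
    have h2 := (hSp l hl).1.two_le
    have h3 : (2 : ℝ) ≤ l := by exact_mod_cast h2
    have h4 : 1 / (l : ℝ) ≤ 1 / 2 := one_div_le_one_div_of_le (by norm_num) h3
    have h5 := one_sub_exp (x := 1 / (l : ℝ)) (by positivity) h4
    rwa [div_pow, one_pow] at h5
  refine le_trans ?_ (prod_le_prod (fun l _ => (Real.exp_pos _).le) hfac)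
  rw [← Real.exp_sum]
  have h5 : ∑ l ∈ S, (1 / (l : ℝ)) ≤ Real.log (Real.log m) + C := by
    have e1 := (abs_le.1 (hC m hm)).2
    rw [← hS'] at e1
    have e2 : ∑ l ∈ S, (1 / (l : ℝ)) ≤ ∑ l ∈ S', (1 / (l : ℝ)) :=
      sum_le_sum_of_subset_of_nonneg hSS fun l _ _ => by positivity
    linarith
  have h6 : ∑ l ∈ S, (1 / (l : ℝ) ^ 2) ≤ K := by
    rw [hK]
    exact hs.sum_le_tsum S fun l _ => by positivity
  have hm3 : (3 : ℝ) ≤ m := by exact_mod_cast hm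
  have hlog : 0 < Real.log m := Real.log_pos (by linarith)
  have h7 : Real.exp (-(C + K)) / Real.log m = Real.exp (-(C + K) - Real.log (Real.log m)) := by
    rw [Real.exp_sub, Real.exp_log hlog]
  rw [h7]
  apply Real.exp_le_exp.2
  rw [sum_neg_distrib, sum_add_distrib]
  linarith

end Pool.Agent.H571.GB
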